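import Mathlib

/-!
Kadets' theorem: a space in which the identity is a pointwise unconditional sum of compact
operators does not satisfy the Daugavet equation for all rank one operators.
-/

namespace Q88.DK

open Filter Topology

section

variable {Y : Type*} [NormedAddCommGroup Y] [NormedSpace ℝ Y]

/-- The Daugavet property. -/
def Daug (Y : Type*) [NormedAddCommGroup Y] [NormedSpace ℝ Y] : Prop :=
  ∀ (f : Y →L[ℝ] ℝ) (v : Y),
    ‖ContinuousLinearMap.id ℝ Y + f.smulRight v‖ = 1 + ‖f.smulRight v‖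

theorem exists_norming {y : Y} (hy : y ≠ 0) : ∃ h : Y →L[ℝ] ℝ, ‖h‖ = 1 ∧ h y = ‖y‖ := by
  obtain ⟨h, h1, h2⟩ := exists_dual_vector ℝ y (norm_ne_zero_iff.2 hy)
  exact ⟨h, h1, h2⟩

theorem apply_le {f : Y →L[ℝ] ℝ} (hf : ‖f‖ = 1) {y : Y} (hy : ‖y‖ ≤ 1) : |f y| ≤ 1 := by
  have := f.le_opNorm y
  rw [hf, one_mul] at this
  exact this.trans hy

/-- slices inside slices -/
theorem slice_step (hD : Daug Y) {f : Y →L[ℝ] ℝ} (hf : ‖f‖ = 1) {x : Y} (hx : ‖x‖ = 1) {δ : ℝ}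
    (hδ : 0 < δ) (hδ1 : δ ≤ 1) :
    ∃ (f' : Y →L[ℝ] ℝ) (δ' : ℝ), ‖f'‖ = 1 ∧ 0 < δ' ∧ ∀ y : Y, ‖y‖ ≤ 1 → 1 - δ' < f' y →
      1 - δ < f y ∧ 2 - δ < ‖y + x‖ := by
  set η := δ / 5 with hη
  have hη0 : 0 < η := by positivity
  have hnorm : ‖ContinuousLinearMap.id ℝ Y + f.smulRight x‖ = 2 := by
    rw [hD, ContinuousLinearMap.norm_smulRight_apply, hf, hx]; norm_num
  obtain ⟨y0, hy0, hy1⟩ := ContinuousLinearMap.exists_lt_apply_of_lt_opNorm
    (ContinuousLinearMap.id ℝ Y + f.smulRight x) (show 2 - η < _ by rw [hnorm]; linarith)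
  have hval : (ContinuousLinearMap.id ℝ Y + f.smulRight x) y0 = y0 + f y0 • x := rfl
  rw [hval] at hy1
  have hne : y0 + f y0 • x ≠ 0 := by
    intro h; rw [h, norm_zero] at hy1; linarith
  obtain ⟨h, hh1, hh2⟩ := exists_norming hne
  rw [← hh2, map_add, map_smul, smul_eq_mul] at hy1
  have a1 := abs_le.1 (apply_le hh1 hy0.le)
  have a2 := abs_le.1 (apply_le hf hy0.le)
  have a3 := abs_le.1 (apply_le hh1 hx.le)
  have b1 : 1 - η < f y0 * h x := by linarith [a1.2]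
  have b2 : 1 - η < h y0 := by
    have : f y0 * h x ≤ 1 := by nlinarith [a2.1, a2.2, a3.1, a3.2]
    linarith
  -- choose the sign
  have key : ∃ σ : ℝ, |σ| = 1 ∧ 1 - η < σ * f y0 ∧ 1 - η < σ * h x := by
    have hpos : 0 < f y0 * h x := by linarith
    rcases lt_trichotomy (f y0) 0 with h0 | h0 | h0
    · have h3 : h x < 0 := by nlinarith
      exact ⟨-1, by simp, by nlinarith [a3.1], by nlinarith [a2.1]⟩
    · rw [h0, zero_mul] at hpos; exact absurd hpos (lt_irrefl _)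
    · have h3 : 0 < h x := by nlinarith
      exact ⟨1, by simp, by nlinarith [a3.2], by nlinarith [a2.2]⟩
  obtain ⟨σ, hσ, c1, c2⟩ := key
  have hσσ : σ * σ = 1 := by rw [← abs_mul_abs_self, hσ]; norm_num
  set g : Y →L[ℝ] ℝ := σ • h + f with hg
  have hgy : 2 - 2 * η < g (σ • y0) := by
    have : g (σ • y0) = σ * σ * h y0 + σ * f y0 := by
      rw [hg]; simp only [_root_.add_apply, _root_.smul_apply, map_smul, smul_eq_mul]; ring
    rw [this, hσσ, one_mul]; linarith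
  have hσy : ‖σ • y0‖ ≤ 1 := by rw [norm_smul, Real.norm_eq_abs, hσ, one_mul]; exact hy0.le
  have hgn : 2 - 2 * η < ‖g‖ := by
    have := g.le_opNorm (σ • y0)
    have h2 : ‖g‖ * ‖σ • y0‖ ≤ ‖g‖ := mul_le_of_le_one_right (norm_nonneg _) hσy
    have h3 := le_abs_self (g (σ • y0))
    rw [Real.norm_eq_abs] at this
    linarith
  have hg0 : 0 < ‖g‖ := by linarith
  refine ⟨‖g‖⁻¹ • g, η, ?_, hη0, fun y hy hy' => ?_⟩
  · rw [norm_smul, norm_inv, norm_norm, inv_mul_cancel₀ hg0.ne']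
  · have d1 : (1 - η) * ‖g‖ < g y := by
      have : (‖g‖⁻¹ • g) y = ‖g‖⁻¹ * g y := rfl
      rw [this] at hy'
      have := mul_lt_mul_of_pos_left hy' hg0
      rw [mul_comm ‖g‖ (1 - η), ← mul_assoc, mul_inv_cancel₀ hg0.ne', one_mul] at this
      exact this
    have d2 : g y = σ * h y + f y := rfl
    have d3 : (1 - η) * (2 - 2 * η) ≤ (1 - η) * ‖g‖ :=
      mul_le_mul_of_nonneg_left hgn.le (by linarith)
    have d4 : 2 - 4 * η ≤ (1 - η) * (2 - 2 * η) := by nlinarith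
    have e1 := abs_le.1 (apply_le hh1 hy)
    have e2 := abs_le.1 (apply_le hf hy)
    have e3 : |σ * h y| ≤ 1 := by rw [abs_mul, hσ, one_mul]; exact apply_le hh1 hy
    have e4 := abs_le.1 e3
    have e5 : 1 - 4 * η < f y := by linarith [e4.2]
    have e6 : 1 - 4 * η < σ * h y := by linarith [e2.2]
    refine ⟨by linarith, ?_⟩
    have e7 : σ * h y + σ * h x ≤ ‖y + x‖ := by
      have h3 := h.le_opNorm (y + x)
      rw [hh1, one_mul, Real.norm_eq_abs] at h3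
      have h4 : σ * h y + σ * h x = σ * h (y + x) := by rw [map_add]; ring
      rw [h4]
      refine (le_abs_self _).trans ?_
      rw [abs_mul, hσ, one_mul]
      exact h3
    linarith

/-- the same for arbitrary vectors -/
theorem slice_step' (hD : Daug Y) {f : Y →L[ℝ] ℝ} (hf : ‖f‖ = 1) (u : Y) {δ : ℝ}
    (hδ : 0 < δ) :
    ∃ (f' : Y →L[ℝ] ℝ) (δ' : ℝ), ‖f'‖ = 1 ∧ 0 < δ' ∧ ∀ y : Y, ‖y‖ ≤ 1 → 1 - δ' < f' y →
      1 - δ < f y ∧ 1 + ‖u‖ - δ < ‖y + u‖ := by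
  by_cases hu : u = 0
  · subst hu
    refine ⟨f, δ, hf, hδ, fun y hy h => ⟨h, ?_⟩⟩
    rw [norm_zero, add_zero, add_zero]
    have := f.le_opNorm y
    rw [hf, one_mul, Real.norm_eq_abs] at this
    linarith [le_abs_self (f y)]
  · have hu0 : 0 < ‖u‖ := norm_pos_iff.2 hu
    set r := ‖u‖ with hr
    have hx : ‖r⁻¹ • u‖ = 1 := by
      rw [norm_smul, norm_inv, Real.norm_eq_abs, abs_of_pos hu0, inv_mul_cancel₀ hu0.ne']
    set δ1 := min 1 (δ / (1 + r)) with hδ1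
    have hδ1p : 0 < δ1 := lt_min one_pos (by positivity)
    have hδ1a : δ1 ≤ δ / (1 + r) := min_le_right _ _
    have hδ1b : δ1 * (1 + r) ≤ δ := by
      have := mul_le_mul_of_nonneg_right hδ1a (show 0 ≤ 1 + r by positivity)
      rwa [div_mul_cancel₀ _ (by positivity : (1 + r) ≠ 0)] at this
    obtain ⟨f', δ', h1, h2, h3⟩ := slice_step hD hf hx hδ1p (min_le_left _ _)
    refine ⟨f', δ', h1, h2, fun y hy hy' => ?_⟩
    obtain ⟨h4, h5⟩ := h3 y hy hy'
    have h6 : δ1 ≤ δ := by nlinarith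
    refine ⟨by linarith, ?_⟩
    have hru : u = r • (r⁻¹ • u) := by rw [smul_smul, mul_inv_cancel₀ hu0.ne', one_smul]
    rcases le_total r 1 with h7 | h7
    · -- ‖y + r x‖ ≥ ‖y + x‖ - (1 - r)
      have h8 : y + r⁻¹ • u = (y + u) + (1 - r) • (r⁻¹ • u) := by
        conv_rhs => rw [hru]
        rw [smul_smul r⁻¹, ← smul_smul r⁻¹, ← hru, sub_smul, one_smul, ← hru]
        abel
      have h9 : ‖y + r⁻¹ • u‖ ≤ ‖y + u‖ + (1 - r) := by
        rw [h8]
        refine (norm_add_le _ _).trans ?_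
        rw [norm_smul, hx, mul_one, Real.norm_eq_abs, abs_of_nonneg (by linarith)]
      nlinarith
    · have h8 : r • (y + r⁻¹ • u) = (y + u) + (r - 1) • y := by
        rw [smul_add, ← hru, sub_smul, one_smul]; abel
      have h9 : r * ‖y + r⁻¹ • u‖ ≤ ‖y + u‖ + (r - 1) := by
        have h10 : ‖r • (y + r⁻¹ • u)‖ = r * ‖y + r⁻¹ • u‖ := by
          rw [norm_smul, Real.norm_eq_abs, abs_of_pos hu0]
        rw [← h10, h8]
        refine (norm_add_le _ _).trans ?_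
        rw [norm_smul, Real.norm_eq_abs, abs_of_nonneg (by linarith)]
        have : (r - 1) * ‖y‖ ≤ r - 1 := mul_le_of_le_one_right (by linarith) hy
        linarith
      nlinarith [mul_lt_mul_of_pos_left h5 hu0]

/-- finitely many vectors at once -/
theorem slice_finite (hD : Daug Y) (U : Finset Y) {δ : ℝ} (hδ : 0 < δ) :
    ∀ {f : Y →L[ℝ] ℝ}, ‖f‖ = 1 →
    ∃ (f' : Y →L[ℝ] ℝ) (δ' : ℝ), ‖f'‖ = 1 ∧ 0 < δ' ∧ ∀ y : Y, ‖y‖ ≤ 1 → 1 - δ' < f' y →
      1 - δ < f y ∧ ∀ u ∈ U, 1 + ‖u‖ - δ < ‖y + u‖ := by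
  classical
  induction U using Finset.induction_on with
  | empty =>
    intro f hf
    exact ⟨f, δ, hf, hδ, fun y _ h => ⟨h, fun u hu => absurd hu (Finset.notMem_empty u)⟩⟩
  | insert a U _ ih =>
    intro f hf
    obtain ⟨f1, δ1, h1, h2, h3⟩ := ih hf
    obtain ⟨f2, δ2, h4, h5, h6⟩ := slice_step' hD h1 a (lt_min h2 hδ)
    refine ⟨f2, δ2, h4, h5, fun y hy hy' => ?_⟩
    obtain ⟨h7, h8⟩ := h6 y hy hy'
    obtain ⟨h9, h10⟩ := h3 y hy (by linarith [min_le_left δ1 δ])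
    refine ⟨h9, fun u hu => ?_⟩
    rcases Finset.mem_insert.1 hu with rfl | hu
    · linarith [min_le_right δ1 δ]
    · exact h10 u hu

/-- compact operators satisfy the Daugavet equation -/
theorem compact_daug (hD : Daug Y) {T : Y →L[ℝ] Y} (hT : IsCompactOperator T) (hT0 : T ≠ 0)
    {ε : ℝ} (hε : 0 < ε) : 1 + ‖T‖ - ε < ‖ContinuousLinearMap.id ℝ Y - T‖ := by
  classical
  have hTn : 0 < ‖T‖ := norm_pos_iff.2 hT0
  set η := min (ε / 8) (‖T‖ / 2) with hη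
  have hη0 : 0 < η := lt_min (by positivity) (by positivity)
  have hη1 : η ≤ ε / 8 := min_le_left _ _
  have hη2 : η ≤ ‖T‖ / 2 := min_le_right _ _
  obtain ⟨y0, hy0, hy1⟩ := ContinuousLinearMap.exists_lt_apply_of_lt_opNorm T
    (show ‖T‖ - η < ‖T‖ by linarith)
  have hTy : T y0 ≠ 0 := by
    intro h; rw [h, norm_zero] at hy1; linarith
  obtain ⟨g, hg1, hg2⟩ := exists_norming hTy
  set f0 : Y →L[ℝ] ℝ := g.comp T with hf0
  have hf0y : ‖T‖ - η < f0 y0 := by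
    change ‖T‖ - η < g (T y0)
    rw [hg2]; exact hy1
  have hf0n : ‖T‖ - η < ‖f0‖ := by
    have h1 := f0.le_opNorm y0
    have h2 : ‖f0‖ * ‖y0‖ ≤ ‖f0‖ := mul_le_of_le_one_right (norm_nonneg _) hy0.le
    have h3 := le_abs_self (f0 y0)
    rw [Real.norm_eq_abs] at h1
    linarith
  have hf0p : 0 < ‖f0‖ := by linarith
  have hfn : ‖‖f0‖⁻¹ • f0‖ = 1 := by
    rw [norm_smul, norm_inv, norm_norm, inv_mul_cancel₀ hf0p.ne']
  -- a finite net
  obtain ⟨K, hK, hKs⟩ := hT.image_closedBall_subset_compact (f := T.toLinearMap) 1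
  obtain ⟨U, hUf, hU⟩ := Metric.totallyBounded_iff.1 hK.totallyBounded η hη0
  set δ := min η (η / (‖T‖ + 1)) with hδ
  have hδ0 : 0 < δ := lt_min hη0 (by positivity)
  have hδ1 : δ ≤ η := min_le_left _ _
  have hδ2 : δ * (‖T‖ + 1) ≤ η := by
    have := mul_le_mul_of_nonneg_right (min_le_right η (η / (‖T‖ + 1)))
      (show 0 ≤ ‖T‖ + 1 by positivity)
    rwa [div_mul_cancel₀ _ (by positivity : (‖T‖ + 1) ≠ 0)] at this
  obtain ⟨f', δ', hf', hδ', hsl⟩ := slice_finite hD (hUf.toFinset.image (fun u => -u)) hδ0 hfn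
  obtain ⟨z, hz1, hz2⟩ := ContinuousLinearMap.exists_lt_apply_of_lt_opNorm f'
    (show 1 - δ' < ‖f'‖ by rw [hf']; linarith)
  obtain ⟨y, hy2, hy3⟩ : ∃ y : Y, ‖y‖ ≤ 1 ∧ 1 - δ' < f' y := by
    rcases le_total 0 (f' z) with h | h
    · rw [Real.norm_eq_abs, abs_of_nonneg h] at hz2
      exact ⟨z, hz1.le, hz2⟩
    · rw [Real.norm_eq_abs, abs_of_nonpos h] at hz2
      exact ⟨-z, by rw [norm_neg]; exact hz1.le, by rw [map_neg]; exact hz2⟩
  obtain ⟨h4, h5⟩ := hsl y hy2 hy3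
  have h6 : T y ∈ K := hKs ⟨y, by rw [mem_closedBall_zero_iff]; exact hy2, rfl⟩
  obtain ⟨u, hu, h7⟩ := Set.mem_iUnion₂.1 (hU h6)
  rw [Metric.mem_ball, dist_eq_norm] at h7
  have h8 := h5 (-u) (Finset.mem_image.2 ⟨u, hUf.mem_toFinset.2 hu, rfl⟩)
  rw [norm_neg] at h8
  have h9 : ‖y + -u‖ ≤ ‖y - T y‖ + ‖T y - u‖ := by
    have : y + -u = (y - T y) + (T y - u) := by abel
    rw [this]; exact norm_add_le _ _
  have h10 : ‖T y‖ ≤ ‖T y - u‖ + ‖u‖ := by
    have : T y = (T y - u) + u := by abel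
    calc ‖T y‖ = ‖(T y - u) + u‖ := by rw [← this]
      _ ≤ _ := norm_add_le _ _
  have h11 : f0 y ≤ ‖T y‖ := by
    have := g.le_opNorm (T y)
    rw [hg1, one_mul, Real.norm_eq_abs] at this
    exact (le_abs_self _).trans this
  have h12 : (1 - δ) * ‖f0‖ < f0 y := by
    have e : (‖f0‖⁻¹ • f0) y = ‖f0‖⁻¹ * f0 y := rfl
    rw [e] at h4
    have := mul_lt_mul_of_pos_left h4 hf0p
    rw [mul_comm ‖f0‖ (1 - δ), ← mul_assoc, mul_inv_cancel₀ hf0p.ne', one_mul] at this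
    exact this
  have h13 : ‖f0‖ ≤ ‖T‖ := by
    have := g.opNorm_comp_le T
    rw [hg1, one_mul] at this
    exact this
  have h14 : ‖T‖ - 2 * η < f0 y := by
    have : δ * ‖f0‖ ≤ η := by nlinarith [norm_nonneg f0]
    nlinarith
  have h15 : ‖y - T y‖ ≤ ‖ContinuousLinearMap.id ℝ Y - T‖ := by
    have := (ContinuousLinearMap.id ℝ Y - T).le_opNorm y
    have e : (ContinuousLinearMap.id ℝ Y - T) y = y - T y := rfl
    rw [e] at this
    exact this.trans (mul_le_of_le_one_right (norm_nonneg _) hy2)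
  linarith

/-- Kadets' theorem. -/
theorem no_daug {ι : Type*} [DecidableEq ι] (P : Finset ι → Y →L[ℝ] Y) (M : ℝ) (hM : ∀ F, ‖P F‖ ≤ M)
    (hc : ∀ F, IsCompactOperator (P F))
    (hadd : ∀ F G, Disjoint F G → P (F ∪ G) = P F + P G)
    (hlim : ∀ (y : Y) (ε : ℝ), 0 < ε → ∃ G : Finset ι, ∀ F, G ⊆ F → ‖P F y - y‖ < ε)
    (hne : ∃ y : Y, y ≠ 0) : ¬ Daug Y := by
  intro hD
  have hbdd : BddAbove (Set.range (fun F => ‖P F‖)) := ⟨M, by rintro _ ⟨F, rfl⟩; exact hM F⟩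
  set s := sSup (Set.range (fun F => ‖P F‖)) with hs
  have hle : ∀ F, ‖P F‖ ≤ s := fun F => le_csSup hbdd ⟨F, rfl⟩
  obtain ⟨y, hy⟩ := hne
  have hy0 : 0 < ‖y‖ := norm_pos_iff.2 hy
  have hspos : 0 < s := by
    obtain ⟨G, hG⟩ := hlim y ‖y‖ hy0
    have h1 := hG G (Finset.Subset.refl _)
    have h2 : P G ≠ 0 := by
      intro h0
      rw [h0, _root_.zero_apply, zero_sub, norm_neg] at h1
      exact lt_irrefl _ h1
    exact (norm_pos_iff.2 h2).trans_le (hle G)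
  obtain ⟨_, ⟨F, rfl⟩, hF⟩ := exists_lt_of_lt_csSup (Set.range_nonempty _)
    (show s - min (1 / 4) (s / 2) < s by
      have : 0 < min (1 / 4 : ℝ) (s / 2) := lt_min (by norm_num) (by positivity)
      linarith)
  simp only at hF
  have hF1 : s - 1 / 4 < ‖P F‖ := by linarith [min_le_left (1 / 4 : ℝ) (s / 2)]
  have hF2 : 0 < ‖P F‖ := by linarith [min_le_right (1 / 4 : ℝ) (s / 2)]
  have h1 := compact_daug hD (hc F) (norm_pos_iff.1 hF2) (show (0 : ℝ) < 1 / 4 by norm_num)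
  have h2 : ‖ContinuousLinearMap.id ℝ Y - P F‖ ≤ s := by
    refine ContinuousLinearMap.opNorm_le_bound _ hspos.le (fun z => ?_)
    refine le_of_forall_pos_le_add (fun ε hε => ?_)
    obtain ⟨G, hG⟩ := hlim z ε hε
    have h3 := hG (F ∪ G) Finset.subset_union_right
    have h4 : P (F ∪ G) = P F + P (G \ F) := by
      rw [← hadd F (G \ F) Finset.disjoint_sdiff, Finset.union_sdiff_self_eq_union]
    have h5 : (ContinuousLinearMap.id ℝ Y - P F) z = P (G \ F) z - (P (F ∪ G) z - z) := by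
      rw [h4]
      change z - P F z = P (G \ F) z - (P F z + P (G \ F) z - z)
      abel
    rw [h5]
    calc ‖P (G \ F) z - (P (F ∪ G) z - z)‖ ≤ ‖P (G \ F) z‖ + ‖P (F ∪ G) z - z‖ := norm_sub_le _ _
      _ ≤ s * ‖z‖ + ε := by
        have h6 := (P (G \ F)).le_opNorm z
        have h7 : ‖P (G \ F)‖ * ‖z‖ ≤ s * ‖z‖ :=
          mul_le_mul_of_nonneg_right (hle _) (norm_nonneg _)
        linarith
  linarith

end

end Q88.DK
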