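import Pool.Agent.Q88.DK.Tree

/-!
The tree space contains a bounded convex set which is not slicely countably determined.
-/

namespace Q88.DK

open Filter Topology Q88.SCD

section

variable {X : Type} [NormedAddCommGroup X] [NormedSpace ℝ X] (T : TreeSpace X)

/-- no two nodes on a common branch -/
def Anti (F : Finset Node) : Prop := ∀ s ∈ F, ∀ r ∈ F, s ≠ r → ∀ t, ¬ (on s t ∧ on r t)

/-- the root -/
def root : Node := ⟨0, fun _ => false⟩

theorem on_root (t : Dl) : on root t := fun i => i.elim0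

/-- the points -/
noncomputable def aa (F : Finset Node) : X := T.e root - ∑ s ∈ F, T.e s

theorem ev_anti_sum {F : Finset Node} (hF : Anti F) (t ε : Dl) :
    |∑ s ∈ F, T.ev (t, ε) (T.e s)| ≤ 1 := by
  classical
  by_cases h : ∃ s ∈ F, on s t
  · obtain ⟨s, hs, hst⟩ := h
    rw [Finset.sum_eq_single_of_mem s hs, T.ev_e, if_pos hst, sgb_abs]
    intro r hr hrs
    rw [T.ev_e, if_neg]
    intro hrt
    exact hF r hr s hs hrs t ⟨hrt, hst⟩
  · rw [Finset.sum_eq_zero]
    · simp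
    · intro s hs
      rw [T.ev_e, if_neg (fun hst => h ⟨s, hs, hst⟩)]

theorem aa_norm {F : Finset Node} (hF : Anti F) : ‖aa T F‖ ≤ 2 := by
  classical
  refine T.le_of_ev _ _ (by norm_num) (fun p => ?_)
  obtain ⟨t, ε⟩ := p
  unfold aa
  rw [map_sub, map_sum, T.ev_e, if_pos (on_root t)]
  have h1 := abs_le.1 (ev_anti_sum T hF t ε)
  have h2 := abs_le.1 (sgb_abs (ε root.1)).le
  rw [abs_le]
  constructor <;> linarith [h1.1, h1.2, h2.1, h2.2]

/-- no atom -/
def NoAtom (φ : X →L[ℝ] ℝ) (t : Dl) : Prop :=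
  ∀ δ : ℝ, 0 < δ → ∃ N, ∀ n, N ≤ n → |φ (T.e (rs t n))| ≤ δ

/-- atoms of a given size -/
def BadT (φ : X →L[ℝ] ℝ) (δ : ℝ) : Set Dl := {t | ∀ N, ∃ n, N ≤ n ∧ δ < |φ (T.e (rs t n))|}

theorem finite_BadT (φ : X →L[ℝ] ℝ) {δ : ℝ} (hδ : 0 < δ) : (BadT T φ δ).Finite := by
  classical
  by_contra hinf
  obtain ⟨N, hN⟩ := exists_nat_gt (‖φ‖ / δ)
  obtain ⟨F, hF, hcard⟩ := Set.Infinite.exists_subset_card_eq hinf N
  obtain ⟨n, hn⟩ := exists_sep_finset F
  have h1 : ∀ t ∈ F, ∃ m, n ≤ m ∧ δ < |φ (T.e (rs t m))| := fun t ht => hF ht n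
  choose! g hg1 hg2 using h1
  have h2 : ‖∑ t ∈ F, (SignType.sign (φ (T.e (rs t (g t)))) : ℝ) • T.e (rs t (g t))‖ ≤ 1 := by
    refine T.le_of_ev _ _ zero_le_one (fun p => ?_)
    obtain ⟨u, ε⟩ := p
    rw [map_sum]
    have hs : ∀ r : ℝ, |(SignType.sign r : ℝ)| ≤ 1 := by
      intro r
      rcases lt_trichotomy r 0 with h | h | h
      · simp [sign_neg h]
      · simp [h]
      · simp [sign_pos h]
    by_cases h : ∃ t ∈ F, on (rs t (g t)) u
    · obtain ⟨t, ht, htu⟩ := h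
      rw [Finset.sum_eq_single_of_mem t ht, map_smul, T.ev_e, if_pos htu, smul_eq_mul, abs_mul,
        sgb_abs, mul_one]
      · exact hs _
      · intro s hs' hst
        rw [map_smul, T.ev_e, if_neg, smul_zero]
        intro hsu
        rw [on_rs] at hsu htu
        exact Set.disjoint_left.1 (hn s hs' t ht hst) (cyl_anti s (hg1 s hs') hsu)
          (cyl_anti t (hg1 t ht) htu)
    · rw [Finset.sum_eq_zero]
      · simp
      · intro s hs'
        rw [map_smul, T.ev_e, if_neg (fun hsu => h ⟨s, hs', hsu⟩), smul_zero]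
  have h3 : ∑ t ∈ F, |φ (T.e (rs t (g t)))| ≤ ‖φ‖ := by
    have : ∑ t ∈ F, |φ (T.e (rs t (g t)))| =
        φ (∑ t ∈ F, (SignType.sign (φ (T.e (rs t (g t)))) : ℝ) • T.e (rs t (g t))) := by
      rw [map_sum]
      refine Finset.sum_congr rfl (fun k _ => ?_)
      rw [map_smul, smul_eq_mul, sign_mul_self]
    rw [this]
    refine (le_abs_self _).trans ((φ.le_opNorm _).trans ?_)
    exact (mul_le_mul_of_nonneg_left h2 (norm_nonneg _)).trans (mul_one _).le
  have h4 : (N : ℝ) * δ ≤ ∑ t ∈ F, |φ (T.e (rs t (g t)))| := by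
    have := Finset.sum_le_sum (fun t ht => (hg2 t ht).le)
    rw [Finset.sum_const, hcard, nsmul_eq_mul] at this
    exact this
  have h5 : ‖φ‖ < N * δ := (div_lt_iff₀ hδ).1 hN
  linarith

theorem countable_not_noAtom (φ : X →L[ℝ] ℝ) : {t | ¬ NoAtom T φ t}.Countable := by
  have : {t | ¬ NoAtom T φ t} ⊆ ⋃ j : ℕ, BadT T φ (1 / ((j : ℝ) + 1)) := by
    intro t ht
    simp only [NoAtom, Set.mem_ofPred_eq, not_forall, not_exists, not_le, exists_prop] at ht
    obtain ⟨δ, hδ, ht⟩ := ht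
    obtain ⟨j, hj⟩ := exists_nat_one_div_lt hδ
    refine Set.mem_iUnion.2 ⟨j, fun n => ?_⟩
    obtain ⟨m, hm, h⟩ := ht n
    exact ⟨m, hm, hj.trans h⟩
  refine Set.Countable.mono this (Set.countable_iUnion (fun j => ?_))
  exact (finite_BadT T φ (by positivity)).countable

theorem exists_noAtom (φ : ℕ → X →L[ℝ] ℝ) : ∃ t : Dl, ∀ k, NoAtom T (φ k) t := by
  have h1 : (⋃ k, {t | ¬ NoAtom T (φ k) t}).Countable :=
    Set.countable_iUnion (fun k => countable_not_noAtom T (φ k))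
  by_contra h
  push Not at h
  refine uncountable_Dl (h1.mono (fun t _ => ?_))
  obtain ⟨k, hk⟩ := h t
  exact Set.mem_iUnion.2 ⟨k, hk⟩

/-- modification of an element -/
theorem exists_modified {F : Finset Node} (hF : Anti F) (φ : X →L[ℝ] ℝ) {t : Dl}
    (ht : NoAtom T φ t) {c : ℝ} (hc : c < φ (aa T F)) :
    ∃ F' : Finset Node, Anti F' ∧ c < φ (aa T F') ∧ T.ev (t, tr) (aa T F') = 0 := by
  classical
  have hsg : ∀ s : Node, sgb (tr s.1) = 1 := fun s => by simp [sgb, tr]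
  by_cases h : ∃ s ∈ F, on s t
  · refine ⟨F, hF, hc, ?_⟩
    obtain ⟨s, hs, hst⟩ := h
    unfold aa
    rw [map_sub, map_sum, Finset.sum_eq_single_of_mem s hs, T.ev_e, T.ev_e, if_pos hst,
      if_pos (on_root t), hsg, hsg, sub_self]
    intro r hr hrs
    rw [T.ev_e, if_neg]
    intro hrt
    exact hF r hr s hs hrs t ⟨hrt, hst⟩
  · push Not at h
    obtain ⟨N, hN⟩ := ht ((φ (aa T F) - c) / 2) (by linarith)
    set n := max N (F.sup (fun s => s.1)) with hn
    have hnN : N ≤ n := le_max_left _ _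
    have hnF : ∀ s ∈ F, s.1 ≤ n := fun s hs =>
      (Finset.le_sup (f := fun s : Node => s.1) hs).trans (le_max_right _ _)
    have hnot : rs t n ∉ F := fun h' => h _ h' (on_self t n)
    have hdis : ∀ s ∈ F, ∀ u, ¬ (on s u ∧ on (rs t n) u) := by
      rintro s hs u ⟨h1, h2⟩
      apply h s hs
      intro i
      rw [h1 i]
      have := h2 ⟨i, i.2.trans_le (hnF s hs)⟩
      exact this.symm
    refine ⟨insert (rs t n) F, ?_, ?_, ?_⟩
    · intro s hs r hr hsr u hu
      rcases Finset.mem_insert.1 hs with rfl | hs <;> rcases Finset.mem_insert.1 hr with rfl | hr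
      · exact hsr rfl
      · exact hdis r hr u ⟨hu.2, hu.1⟩
      · exact hdis s hs u hu
      · exact hF s hs r hr hsr u hu
    · have h1 : aa T (insert (rs t n) F) = aa T F - T.e (rs t n) := by
        unfold aa
        rw [Finset.sum_insert hnot]; abel
      rw [h1, map_sub]
      have := abs_le.1 (hN n hnN)
      linarith [this.2]
    · unfold aa
      rw [Finset.sum_insert hnot, map_sub, map_add, map_sum, T.ev_e, T.ev_e,
        if_pos (on_root t), if_pos (on_self t n), hsg, hsg, Finset.sum_eq_zero]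
      · norm_num
      · intro s hs
        rw [T.ev_e, if_neg (h s hs)]

/-- The bounded convex set. -/
noncomputable def AT : Set X := convexHull ℝ {x | ∃ F, Anti F ∧ x = aa T F}

include T in
theorem not_scd_tree : ¬ ∀ A : Set X, A.Nonempty → Convex ℝ A → Bornology.IsBounded A →
    ∃ (f : ℕ → (X →L[ℝ] ℝ)) (c : ℕ → ℝ), (∀ n, ∃ x ∈ A, c n < f n x) ∧
      ∀ y : ℕ → X, (∀ n, y n ∈ A ∧ c n < f n (y n)) → A ⊆ closure (convexHull ℝ (Set.range y)) := by
  classical
  intro h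
  have hemp : Anti ∅ := fun s hs => absurd hs (Finset.notMem_empty s)
  obtain ⟨f, c, hfc, hall⟩ := h (AT T) ⟨aa T ∅, subset_convexHull ℝ _ ⟨∅, hemp, rfl⟩⟩
    (convex_convexHull ℝ _) (by
      rw [AT, isBounded_convexHull]
      refine (isBounded_iff_forall_norm_le).2 ⟨2, ?_⟩
      rintro _ ⟨F, hF, rfl⟩
      exact aa_norm T hF)
  obtain ⟨t, ht⟩ := exists_noAtom T f
  have h1 : ∀ n, ∃ F, Anti F ∧ c n < f n (aa T F) := by
    intro n
    by_contra hcon
    push Not at hcon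
    obtain ⟨x, hx, hlt⟩ := hfc n
    have h2 : AT T ⊆ {z | f n z ≤ c n} := by
      refine convexHull_min ?_ (convex_halfSpace_le (f n).isLinear (c n))
      rintro _ ⟨F, hF, rfl⟩
      exact hcon F hF
    exact absurd (h2 hx) (not_le.2 hlt)
  have h2 : ∀ n, ∃ F, Anti F ∧ c n < f n (aa T F) ∧ T.ev (t, tr) (aa T F) = 0 := by
    intro n
    obtain ⟨F, hF, hlt⟩ := h1 n
    exact exists_modified T hF (f n) (ht n) hlt
  choose F hF hF1 hF2 using h2
  have h3 := hall (fun n => aa T (F n)) (fun n => ⟨subset_convexHull ℝ _ ⟨F n, hF n, rfl⟩, hF1 n⟩)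
  have h4 : closure (convexHull ℝ (Set.range fun n => aa T (F n))) ⊆
      {x : X | T.ev (t, tr) x ≤ 0} := by
    refine closure_minimal (convexHull_min ?_ (convex_halfSpace_le (T.ev (t, tr)).isLinear 0))
      (isClosed_le (T.ev (t, tr)).continuous continuous_const)
    rintro _ ⟨n, rfl⟩
    exact (hF2 n).le
  have h5 : aa T ∅ ∈ AT T := subset_convexHull ℝ _ ⟨∅, hemp, rfl⟩
  have h6 : T.ev (t, tr) (aa T ∅) ≤ 0 := h4 (h3 h5)
  unfold aa at h6
  rw [Finset.sum_empty, sub_zero, T.ev_e, if_pos (on_root t)] at h6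
  simp [sgb, tr] at h6
  norm_num at h6

end

end Q88.DK
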