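import Pool.Agent.Q88.SCD.Sets
import Pool.Agent.Q88.DK.Kadets

/-!
A separable Banach space with an unconditional basis indexed by the dyadic tree.
-/

namespace Q88.DK

open Filter Topology Q88.SCD

open scoped ENNReal

/-- nodes of the dyadic tree -/
abbrev Node : Type := Σ n : ℕ, (Fin n → Bool)

/-- the node lies on the branch -/
def on (s : Node) (t : Dl) : Prop := ∀ i : Fin s.1, s.2 i = t i

/-- the node of the branch at a level -/
def rs (t : Dl) (n : ℕ) : Node := ⟨n, fun i => t i⟩

theorem on_rs (t u : Dl) (n : ℕ) : on (rs t n) u ↔ u ∈ cyl t n := by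
  constructor
  · intro h i hi
    exact (h ⟨i, hi⟩).symm
  · intro h i
    exact (h i i.2).symm

theorem on_iff (s : Node) (t : Dl) : on s t ↔ s = rs t s.1 := by
  constructor
  · intro h
    obtain ⟨n, s⟩ := s
    have : s = fun i : Fin n => t i := funext h
    subst this
    rfl
  · intro h
    rw [h]
    intro i; rfl

theorem on_self (t : Dl) (n : ℕ) : on (rs t n) t := fun _ => rfl

/-- the sign of a boolean -/
def sgb (b : Bool) : ℝ := if b then 1 else -1

theorem sgb_abs (b : Bool) : |sgb b| = 1 := by cases b <;> simp [sgb]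

/-- extension of a node to a branch -/
def ex (s : Node) : Dl := fun i => if h : i < s.1 then s.2 ⟨i, h⟩ else false

theorem on_ex (s : Node) : on s (ex s) := by
  intro i
  simp [ex]

/-- all signs positive -/
def tr : Dl := fun _ => true

/-- one sign negative -/
def fl (n : ℕ) : Dl := fun i => if i = n then false else true

open Classical in
/-- The Banach space, abstractly: completion of the finitely supported functions on the tree for
the supremum over branches of the `ℓ₁` norm along the branch. -/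
structure TreeSpace (X : Type) [NormedAddCommGroup X] [NormedSpace ℝ X] where
  e : Node → X
  ev : Dl × Dl → X →L[ℝ] ℝ
  ev_le : ∀ p x, |ev p x| ≤ ‖x‖
  le_of_ev : ∀ x (r : ℝ), 0 ≤ r → (∀ p, |ev p x| ≤ r) → ‖x‖ ≤ r
  ev_e : ∀ s t ε, ev (t, ε) (e s) = if on s t then sgb (ε s.1) else 0
  dense_span : Dense (Submodule.span ℝ (Set.range e) : Set X)

theorem exists_closed_span {G : Type} [NormedAddCommGroup G] [NormedSpace ℝ G] [CompleteSpace G]
    {ι : Type} [Countable ι] (E : ι → G) :
    ∃ (X : Type) (_ : NormedAddCommGroup X) (_ : NormedSpace ℝ X) (_ : CompleteSpace X)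
      (_ : TopologicalSpace.SeparableSpace X) (j : X →ₗᵢ[ℝ] G) (e : ι → X),
      (∀ s, j (e s) = E s) ∧ Dense (Submodule.span ℝ (Set.range e) : Set X) := by
  set S : Submodule ℝ G := (Submodule.span ℝ (Set.range E)).topologicalClosure with hS
  have hSc : (S : Set G) = closure (Submodule.span ℝ (Set.range E) : Set G) := by
    rw [hS, Submodule.topologicalClosure_coe]
  have h0 : (Submodule.span ℝ (Set.range E) : Set G) ⊆ S := by
    rw [hSc]; exact subset_closure
  have i1 : CompleteSpace S := (Submodule.isClosed_topologicalClosure _).completeSpace_coe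
  have i2 : TopologicalSpace.SeparableSpace S := by
    have h1 : TopologicalSpace.IsSeparable (Set.range E) := (Set.countable_range E).isSeparable
    have h2 : TopologicalSpace.IsSeparable (S : Set G) := by
      have := (h1.span (R := ℝ)).closure
      rwa [← hSc] at this
    exact h2.separableSpace
  refine ⟨S, inferInstance, inferInstance, i1, i2, S.subtypeₗᵢ,
    fun s => ⟨E s, h0 (Submodule.subset_span ⟨s, rfl⟩)⟩, fun s => rfl, ?_⟩
  rw [Metric.dense_iff]
  intro x r hr
  have hx : (x : G) ∈ closure (Submodule.span ℝ (Set.range E) : Set G) := by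
    rw [← hSc]; exact x.2
  obtain ⟨f, hf, hxf⟩ := Metric.mem_closure_iff.1 hx r hr
  obtain ⟨c, rfl⟩ := (Finsupp.mem_span_range_iff_exists_finsupp).1 hf
  refine ⟨⟨_, h0 hf⟩, ?_, ?_⟩
  · rw [Metric.mem_ball, dist_comm]
    exact hxf
  · refine (Finsupp.mem_span_range_iff_exists_finsupp).2 ⟨c, ?_⟩
    apply Subtype.ext
    rw [Finsupp.sum, Submodule.coe_sum]
    rfl

/-- the ambient space -/
abbrev Zj : Type := lp (fun _ : Dl × Dl => ℝ) ∞

open Classical in
/-- the basis vectors -/
noncomputable def E (s : Node) : Zj :=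
  ⟨fun p => if on s p.1 then sgb (p.2 s.1) else 0, memℓp_infty ⟨1, by
    rintro _ ⟨p, rfl⟩
    simp only
    split_ifs
    · rw [Real.norm_eq_abs, sgb_abs]
    · simp⟩⟩

/-- evaluation -/
noncomputable def ej (p : Dl × Dl) : Zj →L[ℝ] ℝ :=
  LinearMap.mkContinuous
    { toFun := fun f => f p
      map_add' := fun f g => rfl
      map_smul' := fun c f => rfl } 1 (fun f => by
        rw [one_mul]
        exact lp.norm_apply_le_norm ENNReal.top_ne_zero f p)

theorem exists_treeSpace : ∃ (X : Type) (_ : NormedAddCommGroup X) (_ : NormedSpace ℝ X)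
    (_ : CompleteSpace X) (_ : TopologicalSpace.SeparableSpace X), Nonempty (TreeSpace X) := by
  obtain ⟨X, i1, i2, i3, i4, j, e, he, hd⟩ := exists_closed_span E
  refine ⟨X, i1, i2, i3, i4, ⟨⟨e, fun p => (ej p).comp j.toContinuousLinearMap, ?_, ?_, ?_, hd⟩⟩⟩
  · intro p x
    have h1 : ‖(j x) p‖ ≤ ‖j x‖ := lp.norm_apply_le_norm ENNReal.top_ne_zero _ p
    rw [j.norm_map] at h1
    exact h1
  · intro x r hr h
    rw [← j.norm_map]
    exact lp.norm_le_of_forall_le hr h
  · intro s t ε
    change (j (e s)) (t, ε) = _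
    rw [he]
    rfl

section

variable {X : Type} [NormedAddCommGroup X] [NormedSpace ℝ X] (T : TreeSpace X)

/-- coordinate functionals -/
noncomputable def co (s : Node) : X →L[ℝ] ℝ :=
  (1 / 2 : ℝ) • (T.ev (ex s, tr) - T.ev (ex s, fl s.1))

theorem co_apply (s : Node) (f : X) :
    co T s f = 1 / 2 * (T.ev (ex s, tr) f - T.ev (ex s, fl s.1) f) := rfl

open Classical in
theorem co_e (s r : Node) : co T s (T.e r) = if r = s then 1 else 0 := by
  rw [co_apply, T.ev_e, T.ev_e]
  by_cases h : r = s
  · subst h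
    rw [if_pos (on_ex r), if_pos (on_ex r), if_pos rfl]
    simp [sgb, tr, fl]
    norm_num
  · rw [if_neg h]
    by_cases h1 : on r (ex s)
    · rw [if_pos h1, if_pos h1]
      have h2 : r.1 ≠ s.1 := by
        intro h3
        apply h
        rw [(on_iff r (ex s)).1 h1, h3]
        exact ((on_iff s (ex s)).1 (on_ex s)).symm
      simp [sgb, tr, fl, h2]
    · rw [if_neg h1, if_neg h1]; simp

/-- the projections -/
noncomputable def P (F : Finset Node) : X →L[ℝ] X := ∑ s ∈ F, (co T s).smulRight (T.e s)

theorem P_apply (F : Finset Node) (f : X) : P T F f = ∑ s ∈ F, co T s f • T.e s := by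
  unfold P
  rw [_root_.sum_apply]
  rfl

theorem ev_sum (F : Finset Node) (c : Node → ℝ) (p : Dl × Dl) :
    T.ev p (∑ s ∈ F, c s • T.e s) = ∑ s ∈ F, c s * T.ev p (T.e s) := by
  rw [map_sum]
  refine Finset.sum_congr rfl (fun s _ => ?_)
  rw [map_smul, smul_eq_mul]

theorem co_comb (c : Node →₀ ℝ) (s : Node) : co T s (c.sum fun i a => a • T.e i) = c s := by
  classical
  rw [Finsupp.sum, map_sum]
  simp_rw [map_smul, co_e, smul_eq_mul, mul_ite, mul_one, mul_zero, Finset.sum_ite_eq']
  split_ifs with h
  · rfl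
  · exact (Finsupp.notMem_support_iff.1 h).symm

theorem P_comb_norm (F : Finset Node) (c : Node →₀ ℝ) :
    ‖P T F (c.sum fun i a => a • T.e i)‖ ≤ ‖c.sum fun i a => a • T.e i‖ := by
  classical
  rw [P_apply]
  simp_rw [co_comb]
  refine T.le_of_ev _ _ (norm_nonneg _) (fun p => ?_)
  obtain ⟨t, e⟩ := p
  rw [ev_sum]
  simp_rw [T.ev_e]
  -- the good choice of signs
  let e' : Dl := fun n => decide (0 ≤ c (rs t n))
  have h1 : ∀ s : Node, on s t → c s * sgb (e' s.1) = |c s| := by
    intro s hs
    have h2 : s = rs t s.1 := (on_iff s t).1 hs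
    have h3 : e' s.1 = decide (0 ≤ c s) := by
      change decide (0 ≤ c (rs t s.1)) = _
      rw [← h2]
    rw [h3]
    by_cases h4 : 0 ≤ c s
    · simp [h4, sgb, abs_of_nonneg h4]
    · simp [h4, sgb, abs_of_neg (not_le.1 h4)]
  have h2 : T.ev (t, e') (c.sum fun i a => a • T.e i) =
      ∑ s ∈ c.support, if on s t then |c s| else 0 := by
    rw [Finsupp.sum, ev_sum]
    refine Finset.sum_congr rfl (fun s _ => ?_)
    rw [T.ev_e]
    split_ifs with h
    · exact h1 s h
    · simp
  have h3 : ∑ s ∈ F, (if on s t then |c s| else 0) ≤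
      ∑ s ∈ c.support, if on s t then |c s| else 0 := by
    have h4 : ∑ s ∈ F, (if on s t then |c s| else 0) =
        ∑ s ∈ F ∩ c.support, (if on s t then |c s| else 0) := by
      refine (Finset.sum_subset Finset.inter_subset_left (fun s hs hs' => ?_)).symm
      have : s ∉ c.support := fun h => hs' (Finset.mem_inter.2 ⟨hs, h⟩)
      rw [Finsupp.notMem_support_iff.1 this]
      simp
    rw [h4]
    refine Finset.sum_le_sum_of_subset_of_nonneg Finset.inter_subset_right (fun s _ _ => ?_)
    split_ifs
    · exact abs_nonneg _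
    · exact le_rfl
  calc |∑ s ∈ F, c s * (if on s t then sgb (e s.1) else 0)|
      ≤ ∑ s ∈ F, |c s * (if on s t then sgb (e s.1) else 0)| := Finset.abs_sum_le_sum_abs _ _
    _ = ∑ s ∈ F, (if on s t then |c s| else 0) := by
        refine Finset.sum_congr rfl (fun s _ => ?_)
        split_ifs
        · rw [abs_mul, sgb_abs, mul_one]
        · simp
    _ ≤ ∑ s ∈ c.support, (if on s t then |c s| else 0) := h3
    _ = T.ev (t, e') (c.sum fun i a => a • T.e i) := h2.symm
    _ ≤ ‖c.sum fun i a => a • T.e i‖ := (le_abs_self _).trans (T.ev_le _ _)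

theorem P_norm_apply_le (F : Finset Node) (x : X) : ‖P T F x‖ ≤ ‖x‖ := by
  have h1 : closure (Submodule.span ℝ (Set.range T.e) : Set X) ⊆ {f : X | ‖P T F f‖ ≤ ‖f‖} := by
    refine closure_minimal ?_ (isClosed_le (P T F).continuous.norm continuous_norm)
    intro f hf
    obtain ⟨c, rfl⟩ := (Finsupp.mem_span_range_iff_exists_finsupp).1 hf
    exact P_comb_norm T F c
  exact h1 (T.dense_span x)

theorem P_norm_le (F : Finset Node) : ‖P T F‖ ≤ 1 := by
  refine ContinuousLinearMap.opNorm_le_bound _ zero_le_one (fun x => ?_)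
  rw [one_mul]
  exact P_norm_apply_le T F x

theorem P_compact (F : Finset Node) : IsCompactOperator (P T F) := by
  classical
  unfold P
  induction F using Finset.induction_on with
  | empty => simpa using (isCompactOperator_zero : IsCompactOperator (0 : X → X))
  | insert a F ha ih =>
    rw [Finset.sum_insert ha]
    refine IsCompactOperator.add ?_ ih
    have h1 : IsCompactOperator (co T a) :=
      isCompactOperator_of_locallyCompactSpace_dom (co T a)
    exact h1.clm_comp (ContinuousLinearMap.toSpanSingleton ℝ (T.e a))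

theorem P_union [DecidableEq Node] (F G : Finset Node) (h : Disjoint F G) :
    P T (F ∪ G) = P T F + P T G := by
  unfold P
  exact Finset.sum_union h

theorem P_lim (x : X) (ε : ℝ) (hε : 0 < ε) :
    ∃ G : Finset Node, ∀ F, G ⊆ F → ‖P T F x - x‖ < ε := by
  classical
  obtain ⟨f, hf, hxf⟩ := Metric.mem_closure_iff.1 (T.dense_span x) (ε / 2) (by positivity)
  obtain ⟨c, rfl⟩ := (Finsupp.mem_span_range_iff_exists_finsupp).1 hf
  refine ⟨c.support, fun F hF => ?_⟩
  set f : X := c.sum fun i a => a • T.e i with hfdef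
  have h1 : P T F f = f := by
    rw [P_apply]
    simp_rw [hfdef, co_comb]
    rw [Finsupp.sum]
    refine (Finset.sum_subset hF (fun s _ hs => ?_)).symm
    rw [Finsupp.notMem_support_iff.1 hs, zero_smul]
  have h2 := P_norm_apply_le T F (x - f)
  rw [map_sub, h1] at h2
  rw [dist_eq_norm] at hxf
  have h4 : P T F x - x = (P T F x - f) - (x - f) := by abel
  rw [h4]
  refine (norm_sub_le _ _).trans_lt ?_
  linarith

theorem e_ne (s : Node) : T.e s ≠ 0 := by
  classical
  intro h
  have h2 := co_e T s s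
  rw [h, map_zero, if_pos rfl] at h2
  norm_num at h2

include T in
/-- The space does not admit an equivalent norm with the Daugavet property. -/
theorem no_daug_renorming (Y : Type) [NormedAddCommGroup Y] [NormedSpace ℝ Y] (e : X ≃L[ℝ] Y) :
    ¬ Daug Y := by
  classical
  let L : X →L[ℝ] Y := e
  let R : Y →L[ℝ] X := e.symm
  refine no_daug (fun F : Finset Node => L.comp ((P T F).comp R)) (‖L‖ * (1 * ‖R‖)) (fun F => ?_)
    (fun F => ?_) (fun F G hFG => ?_) (fun y ε hε => ?_) ⟨L (T.e ⟨0, fun _ => false⟩), ?_⟩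
  · refine (L.opNorm_comp_le _).trans (mul_le_mul_of_nonneg_left ?_ (norm_nonneg L))
    exact ((P T F).opNorm_comp_le R).trans
      (mul_le_mul_of_nonneg_right (P_norm_le T F) (norm_nonneg R))
  · exact ((P_compact T F).comp_clm R).clm_comp L
  · ext y
    change L (P T (F ∪ G) (R y)) = L (P T F (R y)) + L (P T G (R y))
    rw [P_union T F G hFG, _root_.add_apply, map_add]
  · obtain ⟨G, hG⟩ := P_lim T (R y) (ε / (‖L‖ + 1)) (by positivity)
    refine ⟨G, fun F hF => ?_⟩
    have h1 : L.comp ((P T F).comp R) y - y = L (P T F (R y) - R y) := by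
      rw [map_sub]
      have : L (R y) = y := e.apply_symm_apply y
      rw [this]; rfl
    rw [h1]
    refine (L.le_opNorm _).trans_lt ?_
    have h2 := hG F hF
    have h3 : ‖L‖ * ‖P T F (R y) - R y‖ ≤ (‖L‖ + 1) * ‖P T F (R y) - R y‖ :=
      mul_le_mul_of_nonneg_right (by linarith) (norm_nonneg _)
    have h4 : (‖L‖ + 1) * ‖P T F (R y) - R y‖ < (‖L‖ + 1) * (ε / (‖L‖ + 1)) :=
      mul_lt_mul_of_pos_left h2 (by positivity)
    rw [mul_div_cancel₀ _ (by positivity : (‖L‖ + 1) ≠ 0)] at h4
    linarith
  · intro h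
    exact e_ne T _ (e.injective (h.trans (map_zero e).symm))

end

end Q88.DK
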